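import Mathlib
import Pool.Agent.Work.MP_ccba48_gt.Main

/-!
The vertex index of the unit ball of `ℓ_p^n` for `1 ≤ p ≤ 2`; `p = 2` is the Euclidean ball.
-/

set_option autoImplicit false

namespace Pool.Agent.Results.MP_ccba48_gt.LpBalls

open Matrix Finset Pool.Agent.Work.MP_ccba48_gt

variable {n : ℕ} {p : ℝ}

lemma sq_le_lp (h1 : 1 ≤ p) (h2 : p ≤ 2) (x : Fin n → ℝ) :
    √(x ⬝ᵥ x) ≤ (∑ i, |x i| ^ p) ^ (1 / p) := by
  have hp : 0 < p := by linarith
  set A := ∑ i, |x i| ^ p with hA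
  have A0 : 0 ≤ A := sum_nonneg fun i _ => by positivity
  set S := A ^ (1 / p) with hS
  have S0 : 0 ≤ S := by positivity
  have e : S ^ p = A := by rw [hS, one_div, Real.rpow_inv_rpow A0 hp.ne']
  have hi : ∀ i, |x i| ≤ S := fun i => by
    rw [← Real.rpow_le_rpow_iff (abs_nonneg _) S0 hp, e]
    exact single_le_sum (f := fun i => |x i| ^ p) (fun i _ => by positivity) (mem_univ i)
  refine Real.sqrt_le_iff.mpr ⟨S0, ?_⟩
  calc x ⬝ᵥ x = ∑ i, |x i| ^ p * |x i| ^ (2 - p) := by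
        refine sum_congr rfl fun i _ => ?_
        rw [← Real.rpow_add' (abs_nonneg _) (by norm_num), add_sub_cancel, Real.rpow_two, sq_abs, sq]
    _ ≤ ∑ i, |x i| ^ p * S ^ (2 - p) := by
        have h3 : 0 ≤ 2 - p := by linarith
        gcongr with i
        exact hi i
    _ = S ^ 2 := by
        rw [← sum_mul, ← hA, ← e, ← Real.rpow_add' S0 (by norm_num), add_sub_cancel, Real.rpow_two]

lemma lp_le_one (hn : 1 ≤ n) (h1 : 1 ≤ p) (h2 : p ≤ 2) {x : Fin n → ℝ} (hx : x ⬝ᵥ x ≤ 1) :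
    ∑ i, |((n : ℝ) ^ (1 / 2 - 1 / p) • x) i| ^ p ≤ 1 := by
  have hp : 0 < p := by linarith
  have n0 : (0 : ℝ) < n := by exact_mod_cast hn
  have hq : 1 ≤ 2 / p := by rw [le_div_iff₀ hp]; linarith
  have h := Real.rpow_sum_le_const_mul_sum_rpow_of_nonneg (univ : Finset (Fin n))
    (f := fun i => |((n : ℝ) ^ (1 / 2 - 1 / p) • x) i| ^ p) hq (fun i _ => by positivity)
  have e : ∀ i, (|((n : ℝ) ^ (1 / 2 - 1 / p) • x) i| ^ p) ^ (2 / p) =
      (n : ℝ) ^ (1 - 2 / p) * (x i * x i) := fun i => by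
    rw [← Real.rpow_mul (abs_nonneg _), mul_div_cancel₀ _ hp.ne', Real.rpow_two, sq_abs,
      Pi.smul_apply, smul_eq_mul, mul_pow, ← Real.rpow_natCast, ← Real.rpow_mul n0.le, sq]
    congr 2
    push_cast
    ring
  simp only [e, card_univ, Fintype.card_fin] at h
  rw [← mul_sum, ← mul_assoc, ← Real.rpow_add n0, show 2 / p - 1 + (1 - 2 / p) = 0 by ring,
    Real.rpow_zero, one_mul] at h
  by_contra hc
  push Not at hc
  have := Real.one_lt_rpow hc (show 0 < 2 / p by positivity)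
  have h3 : ∑ i, x i * x i ≤ 1 := hx
  linarith

lemma lower_lp (hn : 1 ≤ n) (h1 : 1 ≤ p) (h2 : p ≤ 2) (P : Finset (Fin n → ℝ))
    (hP : {x : Fin n → ℝ | ∑ i, |x i| ^ p ≤ 1} ⊆ convexHull ℝ (P : Set (Fin n → ℝ))) :
    2 * (n : ℝ) ^ (2 - 1 / p) ≤ ∑ v ∈ P, (∑ i, |v i| ^ p) ^ (1 / p) := by
  have n0 : (0 : ℝ) < n := by exact_mod_cast hn
  set c : ℝ := (n : ℝ) ^ (1 / 2 - 1 / p) with hc
  have c0 : 0 < c := by positivity
  have h := lower (ι := P) hn (fun v => c⁻¹ • (v : Fin n → ℝ)) (by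
    intro x hx
    have hconv : Convex ℝ {z : Fin n → ℝ | z ⬝ᵥ x ≤ c} := by
      intro u hu v hv a b ha hb hab
      simp only [Set.mem_ofPred_eq, add_dotProduct, smul_dotProduct, smul_eq_mul] at hu hv ⊢
      calc _ ≤ a * c + b * c := by gcongr
        _ = c := by rw [← add_mul, hab, one_mul]
    have hsub : convexHull ℝ (P : Set (Fin n → ℝ)) ⊆ {z | z ⬝ᵥ x ≤ c} := by
      refine convexHull_min (fun z hz => ?_) hconv
      have := hx ⟨z, hz⟩
      rwa [smul_dotProduct, smul_eq_mul, inv_mul_le_iff₀ c0, mul_one] at this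
    by_contra hlt
    push Not at hlt
    have hpos : 0 < x ⬝ᵥ x := by linarith
    set ρ := √(x ⬝ᵥ x) with hρ
    have ρ0 : 0 < ρ := Real.sqrt_pos.mpr hpos
    have hsq : ρ * ρ = x ⬝ᵥ x := Real.mul_self_sqrt hpos.le
    have hu : (ρ⁻¹ • x) ⬝ᵥ (ρ⁻¹ • x) ≤ 1 := by
      rw [smul_dotProduct, dotProduct_smul, smul_eq_mul, smul_eq_mul, ← hsq]
      exact le_of_eq (by field_simp)
    have h3 : (c • ρ⁻¹ • x) ⬝ᵥ x ≤ c := hsub (hP (lp_le_one hn h1 h2 hu))
    rw [smul_dotProduct, smul_dotProduct, smul_eq_mul, smul_eq_mul, ← hsq,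
      inv_mul_cancel_left₀ ρ0.ne'] at h3
    have : ρ ≤ 1 := le_of_mul_le_mul_left (by linarith) c0
    nlinarith)
  have e : ∀ v : Fin n → ℝ, √((c⁻¹ • v) ⬝ᵥ (c⁻¹ • v)) = c⁻¹ * √(v ⬝ᵥ v) := fun v => by
    rw [smul_dotProduct, dotProduct_smul, smul_eq_mul, smul_eq_mul, ← mul_assoc,
      Real.sqrt_mul (by positivity), Real.sqrt_mul_self (by positivity)]
  simp only [e] at h
  rw [← mul_sum, le_inv_mul_iff₀ c0, sum_coe_sort P fun v => √(v ⬝ᵥ v)] at h
  refine le_trans (le_of_eq ?_) (h.trans (sum_le_sum fun v _ => sq_le_lp h1 h2 v))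
  rw [mul_assoc, ← rpow_three_halves, mul_left_comm, hc, ← Real.rpow_add n0]
  congr 2
  ring

lemma upper_lp (hn : 1 ≤ n) (h1 : 1 ≤ p) : ∃ P : Finset (Fin n → ℝ),
    {x : Fin n → ℝ | ∑ i, |x i| ^ p ≤ 1} ⊆ convexHull ℝ (P : Set (Fin n → ℝ)) ∧
      ∑ v ∈ P, (∑ i, |v i| ^ p) ^ (1 / p) ≤ 2 * (n : ℝ) ^ (2 - 1 / p) := by
  classical
  have hp : 0 < p := by linarith
  have n0 : (0 : ℝ) < n := by exact_mod_cast hn
  set r : ℝ := (n : ℝ) ^ (1 - 1 / p) with hr
  have r0 : 0 < r := by positivity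
  let v : Fin n × Bool → Fin n → ℝ := fun s => Pi.single s.1 (if s.2 then r else -r)
  refine ⟨univ.image v, fun x hx => ?_, ?_⟩
  · have hl1 : ∑ i, |x i| ≤ r := by
      have h := Real.rpow_sum_le_const_mul_sum_rpow (univ : Finset (Fin n)) x h1
      rw [card_univ, Fintype.card_fin] at h
      rw [← Real.rpow_le_rpow_iff (sum_nonneg fun i _ => abs_nonneg _) r0.le hp, hr,
        ← Real.rpow_mul n0.le, show (1 - 1 / p) * p = p - 1 by field_simp]
      exact h.trans (mul_le_of_le_one_right (by positivity) hx)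
    set δ := (1 - (∑ i, |x i|) / r) / (2 * n) with hδ
    have δ0 : 0 ≤ δ := div_nonneg (by linarith [(div_le_one r0).mpr hl1]) (by positivity)
    let w : Fin n × Bool → ℝ := fun s =>
      (if s.2 then (|x s.1| + x s.1) else (|x s.1| - x s.1)) / (2 * r) + δ
    have w0 : ∀ s, 0 ≤ w s := fun s => by
      refine add_nonneg (div_nonneg ?_ (by positivity)) δ0
      split_ifs
      · linarith [neg_abs_le (x s.1)]
      · linarith [le_abs_self (x s.1)]
    have w1 : ∑ s, w s = 1 := by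
      rw [Fintype.sum_prod_type]
      have : ∀ i : Fin n, ∑ b : Bool, w (i, b) = |x i| / r + 2 * δ := fun i => by
        simp [w]
        field_simp
        ring
      simp only [this]
      rw [sum_add_distrib, ← sum_div]
      simp only [sum_const, card_univ, Fintype.card_fin, nsmul_eq_mul]
      rw [hδ]
      field_simp
      ring
    have hxe : x = ∑ s, w s • v s := by
      rw [Fintype.sum_prod_type]
      have : ∀ i : Fin n, ∑ b : Bool, w (i, b) • v (i, b) = Pi.single i (x i) := fun i => by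
        ext c
        by_cases hc : c = i
        · subst hc
          simp [w, v]
          field_simp
          ring
        · simp [w, v, Pi.single_eq_of_ne hc]
      simp only [this]
      exact (univ_sum_single x).symm
    rw [hxe]
    refine (convex_convexHull ℝ _).sum_mem (fun s _ => w0 s) w1 fun s _ => ?_
    apply subset_convexHull
    simp
  · refine (sum_image_le_of_nonneg fun u _ => by positivity).trans (le_of_eq ?_)
    have : ∀ s, (∑ i, |v s i| ^ p) ^ (1 / p) = r := fun s => by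
      rw [sum_eq_single s.1 (fun i _ hi => by simp [v, Pi.single_eq_of_ne hi, hp.ne']) (by simp)]
      have : |v s s.1| = r := by
        simp only [v, Pi.single_eq_same]
        split_ifs <;> simp [abs_of_pos r0]
      rw [this, one_div, Real.rpow_rpow_inv r0.le hp.ne']
    simp only [this, sum_const, card_univ, Fintype.card_prod, Fintype.card_fin, Fintype.card_bool,
      nsmul_eq_mul]
    rw [show 2 - 1 / p = 1 + (1 - 1 / p) by ring, Real.rpow_add n0, Real.rpow_one]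
    push_cast
    ring

/-- For `n ≥ 1` and `1 ≤ p ≤ 2`, the least value of the sum of the `ℓ_p` norms of finitely many
points whose convex hull contains the unit ball of `ℓ_p^n` exists and equals `2 n ^ (2 - 1 / p)`. -/
theorem result :
    ∀ n : ℕ, 1 ≤ n → ∀ p : ℝ, 1 ≤ p → p ≤ 2 →
      IsLeast
        {s : ℝ | ∃ P : Finset (Fin n → ℝ),
          {x : Fin n → ℝ | ∑ i, |x i| ^ p ≤ 1} ⊆ convexHull ℝ (P : Set (Fin n → ℝ)) ∧
            s = ∑ v ∈ P, (∑ i, |v i| ^ p) ^ (1 / p)}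
        (2 * (n : ℝ) ^ (2 - 1 / p)) := by
  intro n hn p h1 h2
  constructor
  · obtain ⟨P, hP, hle⟩ := upper_lp hn h1
    exact ⟨P, hP, le_antisymm (lower_lp hn h1 h2 P hP) hle⟩
  · rintro s ⟨P, hP, rfl⟩
    exact lower_lp hn h1 h2 P hP

end Pool.Agent.Results.MP_ccba48_gt.LpBalls
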